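import Pool.Agent.Helper85.HermDefs
import Pool.Agent.HAS.Bessel
import Pool.Agent.HAS.Final

set_option autoImplicit false

open Pool.Agent.Helper85.Herm Pool.Agent.HAS

/-- There are numbers `T` between `0.3522` and `0.3524` and `κ = 6 / (T (4 - 3 T))` with
`J₀(√κ (1 - T)) = √κ T J₁(√κ (1 - T))` such that the minimum `m` over the convex bodies of volume one
in `ℂ²` of the valuation in `Val_2^{U(2)}` with Klain function `a sin² θ + b cos² θ` satisfies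
`m / √(ab) → 2 √(2κ) = 6.80...` as `a / b → ∞`. -/
theorem Pool.Agent.Results.MP_14a161_gt.AsymptoticConstant.result :
    ∃ T : ℝ, 0.3522 ≤ T ∧ T ≤ 0.3524 ∧ ∃ κ : ℝ, κ = 6 / (T * (4 - 3 * T)) ∧
      J0 (Real.sqrt κ * (1 - T)) = Real.sqrt κ * T * J1 (Real.sqrt κ * (1 - T)) ∧
      6.803 < 2 * Real.sqrt (2 * κ) ∧ 2 * Real.sqrt (2 * κ) < 6.805 ∧
      ∀ δ : ℝ, 0 < δ → ∃ R : ℝ, 0 < R ∧ ∀ a b : ℝ, 0 < b → R * b ≤ a →
        ∃ μ : Body → ℝ, IsHermVal a b μ ∧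
          ∃ m : ℝ, IsLeast {r | ∃ K : Body, UnitVolume K ∧ μ K = r} m ∧
            |m - 2 * Real.sqrt (2 * κ) * Real.sqrt (a * b)| ≤ δ * Real.sqrt (a * b) :=
  main_asym
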