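import Pool.Agent.Helper85.HermDefs
import Pool.Agent.HVM.Thr

set_option autoImplicit false

open Pool.Agent.Helper85.Herm

/-- There is a number `t` with `3/2 ≤ t ≤ 5/2` such that for all `a, b > 0` there is a valuation `μ`
in `Val_2^{U(2)}` with Klain function `a sin² θ + b cos² θ`, with value `√2 (2a + b)` at the
Euclidean balls of volume one, for which these balls are minimisers over all convex bodies of
volume one if and only if `1/2 ≤ a/b ≤ t`. -/
theorem Pool.Agent.Results.MP_14a161_gt.BallThreshold.result :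
    ∃ t : ℝ, 3 / 2 ≤ t ∧ t ≤ 5 / 2 ∧ ∀ a b : ℝ, 0 < a → 0 < b →
      ∃ μ : Body → ℝ, IsHermVal a b μ ∧
        (∀ (K : Body) (x : C2) (r : ℝ), 0 ≤ r → pts K = Metric.closedBall x r → UnitVolume K →
          μ K = Real.sqrt 2 * (2 * a + b)) ∧
        ((∀ K : Body, UnitVolume K → Real.sqrt 2 * (2 * a + b) ≤ μ K) ↔
          b ≤ 2 * a ∧ a ≤ t * b) :=
  Pool.Agent.HVM.threshold
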