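import Pool.Agent.Helper90.Circ.B

set_option autoImplicit false

open Pool.Agent.Helper85.Herm Pool.Agent.Helper90.Circ

/-- Let `-b ≤ 2a ≤ 3b`. The valuation of `Val_2^{U(2)}` with Klain function `a sin² θ + b cos² θ` has
minimum `√2 (2a + b)` over the circled convex bodies (`e^{it} K ⊆ K` for all real `t`) of volume one
in `ℂ²`, and the minimum is attained by the centred ball of volume one. -/
theorem Pool.Agent.Results.MP_14a161_gt.CircledBodies.result
    (a b : ℝ) (h₁ : -b ≤ 2 * a) (h₂ : 2 * a ≤ 3 * b) :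
    ∃ μ : Body → ℝ, IsHermVal a b μ ∧
      IsLeast {r | ∃ K : Body, Circled K ∧ UnitVolume K ∧ μ K = r}
        (Real.sqrt 2 * (2 * a + b)) ∧
      ∀ (K : Body) (x : C2) (r : ℝ), 0 ≤ r → pts K = Metric.closedBall x r → UnitVolume K →
        μ K = Real.sqrt 2 * (2 * a + b) :=
  minimum_circled a b h₁ h₂
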