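import Pool.Agent.Helper85.HermDefs
import Pool.Agent.HVM.Main

set_option autoImplicit false

open Pool.Agent.Helper85.Herm

/-- There are absolute constants `c, C > 0` such that for all `a, b ≥ 0` there is a valuation `μ` in
`Val_2^{U(2)}` with Klain function `a sin² θ + b cos² θ`, nonnegative on all convex bodies, whose
infimum `m` over the convex bodies of volume one in `ℂ²` (attained if `a, b > 0`) satisfies
`c √(ab) ≤ m ≤ C √(ab)` if `b ≤ a`, and `c a^(7/12) b^(5/12) ≤ m ≤ C a^(7/12) b^(5/12)` if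
`a ≤ b`. -/
theorem Pool.Agent.Results.MP_14a161_gt.OrderOfMagnitude.result :
    ∃ c C : ℝ, 0 < c ∧ 0 < C ∧ ∀ a b : ℝ, 0 ≤ a → 0 ≤ b →
      ∃ μ : Body → ℝ, IsHermVal a b μ ∧ (∀ K, 0 ≤ μ K) ∧
        ∃ m : ℝ, IsGLB {r | ∃ K : Body, UnitVolume K ∧ μ K = r} m ∧
          (0 < a → 0 < b → ∃ K : Body, UnitVolume K ∧ μ K = m) ∧
          (b ≤ a → c * Real.sqrt (a * b) ≤ m ∧ m ≤ C * Real.sqrt (a * b)) ∧
          (a ≤ b → c * (a ^ ((7 : ℝ) / 12) * b ^ ((5 : ℝ) / 12)) ≤ m ∧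
            m ≤ C * (a ^ ((7 : ℝ) / 12) * b ^ ((5 : ℝ) / 12))) :=
  Pool.Agent.HVM.main_order
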